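import Mathlib

/-!
# Zero-temperature stability of Sturmian ground states (MP_084e97_mp): definitions and parts

Fibonacci Sturmian system, rare symbol `0` (density `φ = (3 - √5)/2`), frequent symbol `1`.
-/

set_option autoImplicit false

noncomputable section

namespace Pool.Agent.W734.STS

open MeasureTheory Filter

/-! ### words -/

/-- Fibonacci words: `0, 1, 10, 101, 10110, …` -/
def S : ℕ → List (Fin 2)
  | 0 => [0]
  | 1 => [1]
  | (n + 2) => S (n + 1) ++ S n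

/-- decay rate of the interaction at the `i`-th level -/
def lam : ℝ := 2 / 3

/-- forbidden distances between two symbols `0` -/
def D (i : ℕ) : ℕ := if i % 2 = 0 then Nat.fib (i + 4) + 1 else Nat.fib (i + 4) - 1

/-- number of pairs of symbols `0` at distance `d` -/
def V (d : ℕ) (u : List (Fin 2)) : ℕ :=
  ((Finset.range u.length).filter (fun t => u[t]? = some 0 ∧ u[t + d]? = some 0)).card

/-- number of occurrences of `111` -/
def T (u : List (Fin 2)) : ℕ :=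
  ((Finset.range u.length).filter
    (fun t => u[t]? = some 1 ∧ u[t + 1]? = some 1 ∧ u[t + 2]? = some 1)).card

/-- energy of a finite word -/
def G (u : List (Fin 2)) : ℝ :=
  (V 1 u : ℝ) + T u + ∑ i ∈ Finset.Icc 1 u.length, lam ^ i * V (D i) u

/-- sum of a local observable over all windows inside the word -/
def Hs (r : ℕ) (h : (Fin r → Fin 2) → ℝ) (u : List (Fin 2)) : ℝ :=
  ∑ t ∈ Finset.range (u.length + 1 - r), h (fun s => u.getD (t + s) 0)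

/-- the fundamental inequality for finite words -/
def S_FW : Prop := ∀ (r : ℕ) (h : (Fin r → Fin 2) → ℝ), ∃ ρ C : ℝ, 0 ≤ C ∧
  ∀ u : List (Fin 2), |Hs r h u - ρ * u.length| ≤ C * (1 + G u)

/-- additivity of observables over concatenations of Fibonacci words -/
def S_ADD : Prop := ∀ (r : ℕ) (h : (Fin r → Fin 2) → ℝ), ∃ ρ C : ℝ, 0 ≤ C ∧
  ∀ ks : List ℕ, |Hs r h ((ks.map S).flatten) - ρ * ((ks.map S).flatten).length| ≤
    C * (1 + (ks.map (fun k => lam ^ k)).sum)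

/-- additivity up to errors from short words -/
def S_ADD1 : Prop := ∀ (r : ℕ) (h : (Fin r → Fin 2) → ℝ), ∃ (m : ℕ) (c : ℕ → ℝ) (C : ℝ),
  0 ≤ C ∧ (∀ k, m ≤ k → c (k + 2) = c (k + 1) + c k) ∧
  ∀ ks : List ℕ, |Hs r h ((ks.map S).flatten) - ((ks.filter (fun k => m ≤ k)).map c).sum| ≤
    C * (1 + ((ks.filter (fun k => k < m)).length : ℝ))

/-- decomposition of every word into Fibonacci words, controlled by the energy -/
def S_LC : Prop := ∃ C : ℝ, 0 ≤ C ∧ ∀ u : List (Fin 2), ∃ ks : List ℕ,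
  u = (ks.map S).flatten ∧ (ks.map (fun k => lam ^ k)).sum ≤ C * (1 + G u)

/-! ### parsing -/

/-- blocks: active `A`, `B`, inactive `I k`, end marker `E` -/
inductive Blk where
  | A : Blk
  | B : Blk
  | I : ℕ → Blk
  | E : Blk
  deriving DecidableEq

/-- the word of a block at level `j` -/
def wd (j : ℕ) : Blk → List (Fin 2)
  | Blk.A => S (j + 1)
  | Blk.B => S j
  | Blk.I k => S k
  | Blk.E => []

/-- one step of the parsing, from level `j` to level `j + 1` -/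
def step (j : ℕ) : List Blk → List Blk
  | [] => []
  | Blk.A :: Blk.B :: t => Blk.A :: step j t
  | Blk.A :: t => Blk.B :: step j t
  | Blk.B :: t => Blk.I j :: step j t
  | Blk.I k :: t => Blk.I k :: step j t
  | Blk.E :: t => Blk.E :: step j t

/-- level `0` -/
def ini (u : List (Fin 2)) : List Blk :=
  Blk.E :: (u.map (fun x => if x = 1 then Blk.A else Blk.B) ++ [Blk.E])

/-- the parse at level `j` -/
def P (u : List (Fin 2)) : ℕ → List Blk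
  | 0 => ini u
  | (j + 1) => step j (P u j)

/-- inactive -/
def inact : Blk → Bool
  | Blk.A => false
  | Blk.B => false
  | Blk.I _ => true
  | Blk.E => true

/-- is of the form `I k` -/
def isI : Blk → Bool
  | Blk.I _ => true
  | _ => false

/-- auxiliary: number of maximal runs of inactive blocks -/
def clu : Bool → List Blk → ℕ
  | _, [] => 0
  | p, (x :: t) => (if inact x && !p then 1 else 0) + clu (inact x) t

/-- number of clusters (maximal runs of inactive blocks) -/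
def K (L : List Blk) : ℕ := clu false L

/-- number of inactive blocks `I k` -/
def nI (L : List Blk) : ℕ := L.countP isI

/-- number of occurrences of `A A A X` with `X` active -/
def Q : List Blk → ℕ
  | [] => 0
  | (a :: t) => (if a = Blk.A ∧ t[0]? = some Blk.A ∧ t[1]? = some Blk.A ∧
      (t[2]? = some Blk.A ∨ t[2]? = some Blk.B) then 1 else 0) + Q t

/-- words are preserved -/
def S_WD : Prop := (∀ (j : ℕ) (L : List Blk),
    ((step j L).map (wd (j + 1))).flatten = (L.map (wd j)).flatten) ∧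
  (∀ (u : List (Fin 2)) (j : ℕ), ((P u j).map (wd j)).flatten = u) ∧
  (∀ (u : List (Fin 2)) (j : ℕ), u.length < Nat.fib (j + 1) →
    Blk.A ∉ P u j ∧ Blk.B ∉ P u j) ∧
  (∀ n : ℕ, (S n).length = Nat.fib (n + 1)) ∧
  ∀ (u : List (Fin 2)) (j : ℕ), ∃ M : List Blk, P u j = Blk.E :: (M ++ [Blk.E])

/-- the cluster lemma -/
def S_CLU : Prop := (∀ (j : ℕ) (M : List Blk),
    nI (step (j + 1) (step j (Blk.E :: (M ++ [Blk.E])))) ≤
      nI (step j (Blk.E :: (M ++ [Blk.E]))) + 3 * K (step j (Blk.E :: (M ++ [Blk.E])))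
        + Q (Blk.E :: (M ++ [Blk.E])) ∧
    K (step (j + 1) (step j (Blk.E :: (M ++ [Blk.E])))) ≤
      K (step j (Blk.E :: (M ++ [Blk.E]))) + Q (Blk.E :: (M ++ [Blk.E]))) ∧
  ∀ u : List (Fin 2), nI (ini u) = 0 ∧ K (ini u) ≤ 2 ∧
    nI (step 0 (ini u)) ≤ 1 + V 1 u ∧ K (step 0 (ini u)) ≤ 2 + V 1 u

/-- occurrences of `A A A X` cost energy -/
def S_VIO : Prop := ∀ u : List (Fin 2), Q (P u 0) ≤ T u ∧
  ∀ i : ℕ, 1 ≤ i → Q (P u i) ≤ V (D i) u

/-! ### lattice gas -/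

/-- configurations -/
abbrev Cf := ℤ → Fin 2

/-- translation -/
def shift (a : ℤ) (X : Cf) : Cf := fun i => X (i - a)

/-- translation invariant summable interactions -/
structure Inter where
  Φ : Finset ℤ → Cf → ℝ
  loc : ∀ (Λ : Finset ℤ) (X Y : Cf), (∀ i ∈ Λ, X i = Y i) → Φ Λ X = Φ Λ Y
  inv : ∀ (Λ : Finset ℤ) (a : ℤ) (X : Cf), Φ (Λ.image (fun i => i + a)) (shift a X) = Φ Λ X
  sum : ∃ B : Finset ℤ → ℝ, (∀ Λ X, |Φ Λ X| ≤ B Λ) ∧
    Summable (fun Λ : {Λ : Finset ℤ // (0 : ℤ) ∈ Λ} => B Λ)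

/-- finite range -/
def FinRange (Φ : Inter) : Prop := ∃ r : ℕ, ∀ Λ : Finset ℤ,
  (∃ i ∈ Λ, ∃ j ∈ Λ, (r : ℤ) < |i - j|) → ∀ X, Φ.Φ Λ X = 0

/-- `Y` is a local excitation of `X` -/
def Loc (Y X : Cf) : Prop := {i | Y i ≠ X i}.Finite

/-- relative energy `H(Y|X)` -/
def Hrel (Φ : Inter) (Y X : Cf) : ℝ := ∑' Λ : Finset ℤ, (Φ.Φ Λ Y - Φ.Φ Λ X)

/-- ground-state configurations -/
def GSconf (Φ : Inter) (X : Cf) : Prop := ∀ Y : Cf, Loc Y X → 0 ≤ Hrel Φ Y X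

/-- translation invariant probability measures -/
structure Invt (μ : Measure Cf) : Prop where
  prob : IsProbabilityMeasure μ
  inv : ∀ a : ℤ, MeasurePreserving (shift a) μ μ

/-- ground states -/
def GSmeas (Φ : Inter) (μ : Measure Cf) : Prop := Invt μ ∧ ∀ᵐ X ∂μ, GSconf Φ X

/-- the Sturmian sequence generated by `φ` -/
def sturm (φ : ℝ) : Cf := fun n => if Int.fract ((n : ℝ) * φ) < φ then 0 else 1

/-- closure of the orbit -/
def GSt (φ : ℝ) : Set Cf := closure {X | ∃ a : ℤ, X = shift a (sturm φ)}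

/-- invariant measures on the Sturmian system -/
def IsSt (φ : ℝ) (μ : Measure Cf) : Prop := Invt μ ∧ ∀ᵐ X ∂μ, X ∈ GSt φ

/-- `Φ + ε Φ'` -/
def addI (Φ Φ' : Inter) (ε : ℝ) (Ψ : Inter) : Prop := ∀ Λ X, Ψ.Φ Λ X = Φ.Φ Λ X + ε * Φ'.Φ Λ X

/-- the slope -/
def phi : ℝ := (3 - Real.sqrt 5) / 2

/-- the word of `X` in the window `[a, a + N)` -/
def wrd (X : Cf) (a : ℤ) (N : ℕ) : List (Fin 2) := (List.range N).map (fun t : ℕ => X (a + t))

/-- no forbidden pattern at all -/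
def Zero (X : Cf) : Prop := ∀ (a : ℤ) (N : ℕ), G (wrd X a N) = 0

/-- boundary energy -/
def bet (N : ℕ) : ℝ := 8 * (1 + ∑' i : ℕ, lam ^ i * min (D i : ℝ) N)

/-- `bet N = o(N)` -/
def S_BET : Prop := Tendsto (fun N : ℕ => bet N / N) atTop (nhds 0)

/-- the interaction -/
def S_PHI : Prop := ∃ Φ : Inter,
  (∀ X Y : Cf, Zero X → Loc Y X → ∀ (a : ℤ) (N : ℕ), G (wrd Y a N) ≤ Hrel Φ Y X) ∧
  (∀ X Y Z : Cf, Zero Z → ∀ N : ℕ, (∀ i : ℤ, 0 ≤ i → i < N → Y i = Z i) →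
    (∀ i : ℤ, ¬ (0 ≤ i ∧ i < N) → Y i = X i) → Hrel Φ Y X ≤ bet N - G (wrd X 0 N))

/-- general facts on relative energies -/
def S_HREL : Prop :=
  (∀ (Φ : Inter) (X Y Z : Cf), Loc Y X → Loc Z Y → Hrel Φ Z X = Hrel Φ Z Y + Hrel Φ Y X) ∧
  (∀ (Φ : Inter) (X Y : Cf) (a : ℤ), Hrel Φ (shift a Y) (shift a X) = Hrel Φ Y X) ∧
  (∀ (Φ Φ' Ψ : Inter) (ε : ℝ), addI Φ Φ' ε Ψ → ∀ X Y : Cf, Loc Y X →
    Hrel Ψ Y X = Hrel Φ Y X + ε * Hrel Φ' Y X) ∧
  (∀ (Φ : Inter) (R : ℕ) (η : ℝ), 0 < η → ∃ S : ℕ, R ≤ S ∧ ∀ X X' Y Y' : Cf,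
    (∀ i : ℤ, |i| ≤ S → X i = X' i ∧ Y i = Y' i) → (∀ i : ℤ, (R : ℤ) < |i| → Y i = X i ∧ Y' i = X' i) →
    |Hrel Φ Y X - Hrel Φ Y' X'| ≤ η) ∧
  (∀ (Φ Φ' : Inter) (ε : ℝ), ∃ Ψ : Inter, addI Φ Φ' ε Ψ)

/-- relative energies of finite range interactions -/
def S_FR : Prop := ∀ Φ : Inter, FinRange Φ → ∃ (r : ℕ) (h : (Fin r → Fin 2) → ℝ),
  ∀ X Y : Cf, ∀ (a : ℤ) (N : ℕ), (∀ i : ℤ, ¬ (a + r ≤ i ∧ i < a + N - r) → Y i = X i) →
    Hrel Φ Y X = Hs r h (wrd Y a N) - Hs r h (wrd X a N)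

/-- Poincare recurrence -/
def S_REC : Prop := ∀ μ : Measure Cf, Invt μ → ∀ᵐ X ∂μ, ∀ (S : ℕ) (m : ℤ), ∃ n : ℤ, m < n ∧
  ∀ i : ℤ, |i| ≤ S → X (i + n) = X i

/-- existence of the Sturmian measure -/
def S_ROT : Prop := ∃ ρ : Measure Cf, IsSt phi ρ

/-- Sturmian sequences contain no forbidden pattern -/
def S_ZERO : Prop := ∀ X ∈ GSt phi, Zero X

/-- invariant measures are determined -/
def S_DET : Prop := ∀ μ ν : Measure Cf, Invt μ → Invt ν → ∀ β : ℕ → ℝ,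
  Tendsto (fun N : ℕ => β N / N) atTop (nhds 0) →
  (∀ᵐ X ∂μ, ∀ N : ℕ, G (wrd X 0 N) ≤ β N) → (∀ᵐ X ∂ν, ∀ N : ℕ, G (wrd X 0 N) ≤ β N) → μ = ν

/-- recurrent configurations without forbidden patterns are stable -/
def S_STABLE : Prop := ∀ Φ : Inter,
  (∀ X Y : Cf, Zero X → Loc Y X → ∀ (a : ℤ) (N : ℕ), G (wrd Y a N) ≤ Hrel Φ Y X) →
  ∀ Φ' : Inter, FinRange Φ' → ∃ ε0 : ℝ, 0 < ε0 ∧ ∀ ε : ℝ, 0 < ε → ε < ε0 →
  ∀ Ψ : Inter, addI Φ Φ' ε Ψ → ∀ X : Cf, Zero X →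
  (∀ (S : ℕ) (m : ℤ), ∃ n : ℤ, m < n ∧ ∀ i : ℤ, |i| ≤ S → X (i + n) = X i) → GSconf Ψ X

/-- the theorem -/
def S_MAIN : Prop := ∃ (Φ : Inter) (ρ : Measure Cf), Irrational phi ∧ 0 < phi ∧ phi < 1 ∧
  IsSt phi ρ ∧ (∀ μ, IsSt phi μ → μ = ρ) ∧ GSmeas Φ ρ ∧ (∀ μ, GSmeas Φ μ → μ = ρ) ∧
  ∀ Φ' : Inter, FinRange Φ' → ∃ ε0 : ℝ, 0 < ε0 ∧ ∀ ε : ℝ, 0 < ε → ε < ε0 →
    ∀ Ψ : Inter, addI Φ Φ' ε Ψ → GSmeas Ψ ρ

end Pool.Agent.W734.STS
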